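import Pool.Agent.Helper96.EndHard

/-!
# COUNT-END is #P-complete

All definitions on which the statement of `result` rests are in this file. The proof uses the
files of `Pool/Agent/Helper96`: a compiler from a small arithmetic language to Mathlib's Turing
machines, a parsimonious Cook-Levin theorem for these machines, and the reduction from counting
satisfying assignments to counting order-preserving self-maps.

The reduction. To a CNF formula with variable set `V` (`n` variables), clause set `C`, in which
every variable has a clause containing no other variable, one attaches the poset with a least
element, two elements `a < b`, the literals (each below `b`), `s` maximal elements above each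
literal, `k` maximal elements for each clause (above the literals of the clause), and `t` further
maximal elements. The number of order-preserving self-maps is, up to a multiple of a high power of
`2`, equal to `2 ^ (t + s * n + 1) * (#satisfying assignments) + (a smaller number)`.
-/

set_option autoImplicit false

namespace Pool.Agent.Results.MP_593132_lc.CountEndComplete

open Turing

/-! ### Polynomial time -/

/-- The function `f` is computable in polynomial time, its inputs and outputs being written by
means of the encodings `ea` and `eb`: there is a multi-stack Turing machine with finite stack
alphabets which computes `f` and stops after at most polynomially many steps in the length of the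
encoded input (`TM2ComputableInPolyTime` is Mathlib's notion). -/
def PolyTime {α β αΓ βΓ : Type} (ea : α → List αΓ) (eb : β → List βΓ) (f : α → β) : Prop :=
  ∃ M : TM2ComputableInPolyTime ea eb f, ∀ k, Finite (M.tm.Γ k)

/-- Encoding of a pair of binary strings `(x, y)`: the string `x` on one track (symbols `inl b`),
followed by the string `y` on another track (symbols `inr b`). Its length is `|x| + |y|`. -/
def pairEnc (z : List Bool × List Bool) : List (Bool ⊕ Bool) :=
  z.1.map Sum.inl ++ z.2.map Sum.inr

/-- Encoding of a truth value by a string of length one. -/
def boolEnc (b : Bool) : List Bool := [b]

/-- Encoding of a pair of a binary string and a number, the number being written in binary. -/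
def pairNatEnc (z : List Bool × ℕ) : List (Bool ⊕ Bool) :=
  pairEnc (z.1, Computability.encodeNat z.2)

/-! ### The class #P and reductions -/

/-- The class #P: there are a polynomial `p` and a polynomial-time decidable relation `R` such that
`f x` is the number of binary strings `y` of length `p(|x|)` with `R(x, y)`, for all binary strings
`x`. -/
def InSharpP (f : List Bool → ℕ) : Prop :=
  ∃ (p : Polynomial ℕ) (R : List Bool × List Bool → Bool), PolyTime pairEnc boolEnc R ∧
    ∀ x, f x = Nat.card {y : List Bool // y.length = p.eval x.length ∧ R (x, y) = true}

/-- One-query polynomial-time reductions, a special case of polynomial-time Turing reductions: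
`f x` is computed in polynomial time from `x` and from the single value `g (q x)` (written in
binary), where the query `q x` is computed from `x` in polynomial time. -/
def OneQueryReduces (f g : List Bool → ℕ) : Prop :=
  ∃ (q : List Bool → List Bool) (r : List Bool × ℕ → ℕ),
    PolyTime id id q ∧ PolyTime pairNatEnc Computability.encodeNat r ∧
      ∀ x, f x = r (x, g (q x))

/-! ### The problem COUNT-END -/

open Classical in
/-- The `n × n` 0/1 matrix of the order relation of a poset with elements `0, ..., n - 1`, written
as a binary string of length `n * n` in row-major order: the symbol at position `i * n + j` is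
`1` if and only if `i ≤ j` in the poset. -/
noncomputable def matrix {n : ℕ} (P : PartialOrder (Fin n)) : List Bool :=
  List.ofFn fun z : Fin (n * n) => decide (P.le z.divNat z.modNat)

/-- The number `e(P)` of order-preserving self-maps of a poset with elements `0, ..., n - 1`. -/
noncomputable def endCount {n : ℕ} (P : PartialOrder (Fin n)) : ℕ :=
  letI := P
  Nat.card (Fin n →o Fin n)

open Classical in
/-- **COUNT-END** as a function on all binary strings: the matrix of a poset `P` is mapped to
`e(P)` (see `countEnd_matrix`), and strings which are not the matrix of a poset are mapped to `0`.
-/
noncomputable def countEnd (x : List Bool) : ℕ :=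
  if h : ∃ P : (n : ℕ) × PartialOrder (Fin n), matrix P.2 = x then endCount h.choose.2 else 0

theorem countEnd_matrix {n : ℕ} (P : PartialOrder (Fin n)) : countEnd (matrix P) = endCount P := by
  have h : ∃ Q : (m : ℕ) × PartialOrder (Fin m), matrix Q.2 = matrix P := ⟨⟨n, P⟩, rfl⟩
  have h1 : matrix h.choose.2 = matrix P := h.choose_spec
  have h2 : (⟨_, h.choose.2⟩ : Helper96.FinPoset) = ⟨_, P⟩ :=
    Helper96.encode_injective h1
  have h3 : countEnd (matrix P) = endCount h.choose.2 := by
    unfold countEnd
    exact dif_pos h
  rw [h3]
  exact congrArg Helper96.FinPoset.endCount h2

theorem countEnd_eq : countEnd = Helper96.countEnd := by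
  funext x
  by_cases h : ∃ P : Helper96.FinPoset, P.encode = x
  · obtain ⟨P, rfl⟩ := h
    rw [Helper96.countEnd_encode]
    exact countEnd_matrix P.po
  · have h' : ¬ ∃ P : (n : ℕ) × PartialOrder (Fin n), matrix P.2 = x := by
      rintro ⟨⟨n, P⟩, hP⟩
      exact h ⟨⟨n, P⟩, hP⟩
    unfold countEnd Helper96.countEnd
    rw [dif_neg h', dif_neg h]

/-- **COUNT-END is #P-complete** (under polynomial-time Turing reductions, in fact under
reductions with a single query). -/
theorem result :
    InSharpP countEnd ∧ ∀ f : List Bool → ℕ, InSharpP f → OneQueryReduces f countEnd := by
  rw [countEnd_eq]
  exact ⟨Helper96.countEnd_mem, fun f hf => Helper96.countEnd_hard f hf⟩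

end Pool.Agent.Results.MP_593132_lc.CountEndComplete
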